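import Mathlib

open Set Topology

noncomputable section

namespace Pool.Agent.Results.MP_fe892a_gt.ClosedCounterexample

/-- `K` is a subcontinuum of the space `S`: a nonempty compact connected subset. -/
def IsSubcontinuum {S : Type*} [TopologicalSpace S] (K : Set S) : Prop :=
  IsCompact K ∧ IsConnected K

/-- `X` is an indecomposable continuum: a nonempty compact connected Hausdorff space which is not
the union of two proper subcontinua. -/
def IsIndecomposableContinuum (X : Type*) [TopologicalSpace X] : Prop :=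
  T2Space X ∧ CompactSpace X ∧ ConnectedSpace X ∧
    ¬ ∃ A B : Set X, IsSubcontinuum A ∧ IsSubcontinuum B ∧ A ≠ univ ∧ B ≠ univ ∧ A ∪ B = univ

/-- Jones's set function `T`: the complement of the set of all points that lie in the interior of
a subcontinuum of `S` disjoint from `A`. -/
def jonesT {S : Type*} [TopologicalSpace S] (A : Set S) : Set S :=
  {p | ∃ K : Set S, IsSubcontinuum K ∧ p ∈ interior K ∧ K ∩ A = ∅}ᶜ

/-- a criterion for indecomposability -/
theorem indecomposable_of_eq_univ {X : Type*} [TopologicalSpace X] [T2Space X] [CompactSpace X]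
    [ConnectedSpace X]
    (h : ∀ C : Set X, IsClosed C → IsPreconnected C → (interior C).Nonempty → C = univ) :
    IsIndecomposableContinuum X := by
  refine ⟨inferInstance, inferInstance, inferInstance, ?_⟩
  rintro ⟨A, B, hA, hB, hA', hB', hAB⟩
  apply hB'
  apply h B hB.1.isClosed hB.2.isPreconnected
  have hsub : Aᶜ ⊆ B := by
    intro x hx
    have : x ∈ A ∪ B := by rw [hAB]; trivial
    exact this.resolve_left hx
  have hopen : IsOpen Aᶜ := hA.1.isClosed.isOpen_compl
  obtain ⟨x, hx⟩ := nonempty_compl.mpr hA'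
  exact ⟨x, interior_maximal hsub hopen hx⟩

/-- The `p`-adic solenoid as a subgroup of the countable power of the circle. -/
def Sol (p : ℕ) : AddSubgroup (ℕ → UnitAddCircle) where
  carrier := {x | ∀ n, p • x (n + 1) = x n}
  add_mem' := by
    intro a b ha hb n
    simp only [Pi.add_apply, smul_add]
    rw [ha n, hb n]
  zero_mem' := by
    intro n
    simp
  neg_mem' := by
    intro a ha n
    simp only [Pi.neg_apply, smul_neg]
    rw [ha n]

theorem Sol.step {p : ℕ} (x : Sol p) (n : ℕ) : p • x.1 (n + 1) = x.1 n := x.2 n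

theorem Sol.steps {p : ℕ} (x : Sol p) (n k : ℕ) : p ^ k • x.1 (n + k) = x.1 n := by
  induction k with
  | zero => simp
  | succ k ih =>
    rw [pow_succ, mul_smul, ← add_assoc, Sol.step, ih]

theorem Sol.eq_of_eq {p : ℕ} {x y : Sol p} {n m : ℕ} (h : x.1 n = y.1 n) (hm : m ≤ n) :
    x.1 m = y.1 m := by
  obtain ⟨k, rfl⟩ := Nat.exists_eq_add_of_le hm
  rw [← Sol.steps x m k, ← Sol.steps y m k, h]

theorem isClosed_Sol (p : ℕ) : IsClosed (Sol p : Set (ℕ → UnitAddCircle)) := by
  have : (Sol p : Set (ℕ → UnitAddCircle)) = ⋂ n, {x | p • x (n + 1) = x n} := by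
    ext x; simp [Sol]
  rw [this]
  exact isClosed_iInter fun n => isClosed_eq ((continuous_nsmul p).comp (continuous_apply (n + 1))) (continuous_apply n)

instance (p : ℕ) : CompactSpace (Sol p) := isCompact_iff_compactSpace.mp (isClosed_Sol p).isCompact

theorem Sol.metrizable (p : ℕ) : TopologicalSpace.MetrizableSpace (Sol p) :=
  IsEmbedding.subtypeVal.metrizableSpace

theorem Sol.continuous_coord {p : ℕ} (n : ℕ) : Continuous fun x : Sol p => x.1 n :=
  (continuous_apply n).comp continuous_subtype_val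

/-- points agreeing far out with `x` lie in a given neighbourhood of `x` -/
theorem Sol.exists_level {p : ℕ} {O : Set (Sol p)} (hO : IsOpen O) {x : Sol p} (hx : x ∈ O) :
    ∃ n, ∀ y : Sol p, y.1 n = x.1 n → y ∈ O := by
  by_contra hcon
  push Not at hcon
  choose y hy1 hy2 using hcon
  have ht : Filter.Tendsto y Filter.atTop (𝓝 x) := by
    rw [tendsto_subtype_rng, tendsto_pi_nhds]
    intro m
    refine tendsto_const_nhds.congr' ?_
    filter_upwards [Filter.eventually_ge_atTop m] with n hn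
    exact (Sol.eq_of_eq (hy1 n) hn).symm
  obtain ⟨n, hn⟩ := (ht.eventually (hO.mem_nhds hx)).exists
  exact hy2 n hn

/-- the standard line in the solenoid -/
def Sol.line (p : ℕ) (hp : p ≠ 0) (t : ℝ) : Sol p :=
  ⟨fun n => ((t / (p : ℝ) ^ n : ℝ) : UnitAddCircle), by
    intro n
    rw [← AddCircle.coe_nsmul]
    congr 1
    rw [nsmul_eq_mul, pow_succ]
    have : (p : ℝ) ≠ 0 := by exact_mod_cast hp
    field_simp⟩

theorem Sol.line_coord {p : ℕ} (hp : p ≠ 0) (t : ℝ) (n : ℕ) :
    (Sol.line p hp t).1 n = ((t / (p : ℝ) ^ n : ℝ) : UnitAddCircle) := rfl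

theorem Sol.continuous_line {p : ℕ} (hp : p ≠ 0) : Continuous (Sol.line p hp) := by
  refine Continuous.subtype_mk (continuous_pi fun n => ?_) _
  exact (AddCircle.continuous_mk' 1).comp (by fun_prop : Continuous fun t : ℝ => t / (p : ℝ) ^ n)

/-- A closed preconnected set with interior points is everything. -/
theorem Sol.eq_univ {p : ℕ} (hp : 2 ≤ p) {C : Set (Sol p)} (hC : IsClosed C)
    (hpre : IsPreconnected C) (hint : (interior C).Nonempty) : C = univ := by
  by_contra hne
  obtain ⟨a, ha⟩ : ∃ a, a ∉ C := by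
    by_contra h; push Not at h; exact hne (eq_univ_of_forall h)
  obtain ⟨c, hc⟩ := hint
  obtain ⟨n, hn⟩ := Sol.exists_level hC.isOpen_compl (x := a) ha
  obtain ⟨m₀, hm₀⟩ := Sol.exists_level isOpen_interior hc
  set m := max n m₀ with hmdef
  have hnm : n ≤ m := le_max_left _ _
  have hm₀m : m₀ ≤ m := le_max_right _ _
  obtain ⟨k, hk⟩ := Nat.exists_eq_add_of_le (le_trans hnm (Nat.le_succ m))
  have hp0 : p ≠ 0 := by omega
  have hpR : (p : ℝ) ≠ 0 := by exact_mod_cast hp0
  -- the locally constant function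
  let r : Sol p → ℝ := fun x => ((AddCircle.equivIco 1 (0 : ℝ) (x.1 n - a.1 n) : Ico (0 : ℝ) (0 + 1)) : ℝ)
  let g : Sol p → UnitAddCircle := fun x => x.1 (m + 1) - ((r x / (p : ℝ) ^ k : ℝ) : UnitAddCircle)
  have hr : ∀ x, ((r x : ℝ) : UnitAddCircle) = x.1 n - a.1 n := fun x => AddCircle.coe_equivIco
  have hgcont : ContinuousOn g C := by
    intro x hx
    have hxa : x.1 n - a.1 n ≠ (0 : ℝ) := by
      intro h0
      have : x.1 n = a.1 n := sub_eq_zero.mp (by simpa using h0)
      exact hn x this hx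
    have h1 : ContinuousAt (AddCircle.equivIco 1 (0 : ℝ)) (x.1 n - a.1 n) :=
      AddCircle.continuousAt_equivIco 1 (0 : ℝ) hxa
    have h2 : ContinuousAt (fun x : Sol p => x.1 n - a.1 n) x :=
      ((Sol.continuous_coord n).sub continuous_const).continuousAt
    have h3 : ContinuousAt r x :=
      continuousAt_subtype_val.comp (ContinuousAt.comp (f := fun x : Sol p => x.1 n - a.1 n) h1 h2)
    have h4 : ContinuousAt (fun y => ((r y / (p : ℝ) ^ k : ℝ) : UnitAddCircle)) x :=
      (AddCircle.continuous_mk' (1 : ℝ)).continuousAt.comp (h3.div_const _)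
    exact ((Sol.continuous_coord (m + 1)).continuousAt.sub h4).continuousWithinAt
  have hpk : ∀ x, p ^ k • g x = a.1 n := by
    intro x
    have h1 : p ^ k • x.1 (m + 1) = x.1 n := by
      have := Sol.steps x n k
      rwa [← hk] at this
    have h2 : p ^ k • ((r x / (p : ℝ) ^ k : ℝ) : UnitAddCircle) = x.1 n - a.1 n := by
      rw [← AddCircle.coe_nsmul, nsmul_eq_mul, ← hr x]
      congr 1
      push_cast
      field_simp
    show p ^ k • (x.1 (m + 1) - ((r x / (p : ℝ) ^ k : ℝ) : UnitAddCircle)) = a.1 n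
    rw [nsmul_sub, h1, h2]
    abel
  have hfin : {u : UnitAddCircle | p ^ k • u = a.1 n}.Finite := by
    have h0 : {u : UnitAddCircle | p ^ k • u = 0}.Finite :=
      AddCircle.finite_torsion (1 : ℝ) (Nat.pos_of_ne_zero (pow_ne_zero _ hp0))
    refine (h0.image fun u => u + g a).subset ?_
    intro u hu
    refine ⟨u - g a, ?_, sub_add_cancel _ _⟩
    have hu' : p ^ k • u = a.1 n := hu
    show p ^ k • (u - g a) = 0
    rw [nsmul_sub, hu', hpk a, sub_self]
  -- the two points
  let w : Sol p := Sol.line p hp0 ((p : ℝ) ^ m)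
  have hw : ∀ j ≤ m, w.1 j = 0 := by
    intro j hj
    show (((p : ℝ) ^ m / (p : ℝ) ^ j : ℝ) : UnitAddCircle) = 0
    rw [AddCircle.coe_eq_zero_iff]
    refine ⟨(p : ℤ) ^ (m - j), ?_⟩
    rw [zsmul_eq_mul, mul_one]
    push_cast
    rw [eq_div_iff (pow_ne_zero _ hpR), ← pow_add, Nat.sub_add_cancel hj]
  have hw1 : w.1 (m + 1) ≠ 0 := by
    show (((p : ℝ) ^ m / (p : ℝ) ^ (m + 1) : ℝ) : UnitAddCircle) ≠ 0
    intro h
    rw [AddCircle.coe_eq_zero_iff] at h
    obtain ⟨i, hi⟩ := h
    rw [zsmul_eq_mul, mul_one, pow_succ] at hi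
    have hpm : (p : ℝ) ^ m ≠ 0 := pow_ne_zero _ hpR
    have h1 : (i : ℝ) * p = 1 := by
      rw [hi]; field_simp
    have h2 : i * (p : ℤ) = 1 := by exact_mod_cast h1
    have h3 : (p : ℤ) ∣ 1 := ⟨i, by rw [← h2]; ring⟩
    have h4 : (p : ℤ) ≤ 1 := Int.le_of_dvd one_pos h3
    omega
  have hcC : c ∈ C := interior_subset hc
  have hcw : c + w ∈ C := by
    apply interior_subset
    apply hm₀
    show c.1 m₀ + w.1 m₀ = c.1 m₀
    rw [hw m₀ hm₀m, add_zero]
  have hconst : g c = g (c + w) := by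
    refine hpre.constant_of_mapsTo (T := {u : UnitAddCircle | p ^ k • u = a.1 n}) ?_ hgcont ?_ hcC hcw
    · exact hfin.isDiscrete
    · intro x _
      exact hpk x
  have hrr : r (c + w) = r c := by
    show ((AddCircle.equivIco 1 (0 : ℝ) ((c + w).1 n - a.1 n) : Ico (0 : ℝ) (0 + 1)) : ℝ) = _
    have : (c + w).1 n = c.1 n := by
      show c.1 n + w.1 n = c.1 n
      rw [hw n hnm, add_zero]
    rw [this]
  have : g (c + w) = g c + w.1 (m + 1) := by
    simp only [g, hrr]
    show c.1 (m + 1) + w.1 (m + 1) - _ = c.1 (m + 1) - _ + w.1 (m + 1)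
    abel
  rw [this] at hconst
  exact hw1 (by simpa using hconst)


/-- the solenoid is connected -/
theorem Sol.connectedSpace {p : ℕ} (hp : p ≠ 0) : ConnectedSpace (Sol p) := by
  have hpR : (p : ℝ) ≠ 0 := by exact_mod_cast hp
  rw [connectedSpace_iff_univ]
  refine (isConnected_range (Sol.continuous_line hp)).subset_closure (subset_univ _) ?_
  intro x _
  have hex : ∀ n, ∃ t : ℝ, (Sol.line p hp t).1 n = x.1 n := by
    intro n
    obtain ⟨α, hα⟩ := QuotientAddGroup.mk_surjective (x.1 n)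
    refine ⟨p ^ n * α, ?_⟩
    rw [Sol.line_coord, mul_div_cancel_left₀ _ (pow_ne_zero _ hpR)]
    exact hα
  choose t ht using hex
  refine mem_closure_of_tendsto (b := Filter.atTop) (f := fun n => Sol.line p hp (t n)) ?_
    (Filter.Eventually.of_forall fun n => ⟨t n, rfl⟩)
  rw [tendsto_subtype_rng, tendsto_pi_nhds]
  intro m
  refine tendsto_const_nhds.congr' ?_
  filter_upwards [Filter.eventually_ge_atTop m] with n hn
  exact (Sol.eq_of_eq (ht n) hn).symm

theorem exists_time (x : Sol 2) (y : Sol 3) (h : x.1 0 = y.1 0) (n : ℕ) :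
    ∃ t : ℝ, (Sol.line 2 two_ne_zero t).1 n = x.1 n ∧ (Sol.line 3 three_ne_zero t).1 n = y.1 n := by
  obtain ⟨α, hα⟩ := QuotientAddGroup.mk_surjective (x.1 n)
  obtain ⟨β, hβ⟩ := QuotientAddGroup.mk_surjective (y.1 n)
  have hα' : ((α : ℝ) : UnitAddCircle) = x.1 n := hα
  have hβ' : ((β : ℝ) : UnitAddCircle) = y.1 n := hβ
  have hx := Sol.steps x 0 n
  have hy := Sol.steps y 0 n
  rw [zero_add] at hx hy
  have h0 : ((2 ^ n * α - 3 ^ n * β : ℝ) : UnitAddCircle) = 0 := by
    have e1 : ((2 ^ n * α : ℝ) : UnitAddCircle) = x.1 0 := by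
      rw [← hx, ← hα', ← AddCircle.coe_nsmul, nsmul_eq_mul]
      push_cast
      rfl
    have e2 : ((3 ^ n * β : ℝ) : UnitAddCircle) = y.1 0 := by
      rw [← hy, ← hβ', ← AddCircle.coe_nsmul, nsmul_eq_mul]
      push_cast
      rfl
    rw [AddCircle.coe_sub, e1, e2, h, sub_self]
  rw [AddCircle.coe_eq_zero_iff] at h0
  obtain ⟨k, hk⟩ := h0
  rw [zsmul_eq_mul, mul_one] at hk
  have hcop : IsCoprime ((2 : ℤ) ^ n) ((3 : ℤ) ^ n) := by
    apply IsCoprime.pow
    exact ⟨-1, 1, by norm_num⟩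
  obtain ⟨a, b, hab⟩ := hcop
  have habR : (a : ℝ) * 2 ^ n + b * 3 ^ n = 1 := by exact_mod_cast hab
  refine ⟨2 ^ n * (α - k * a), ?_, ?_⟩
  · rw [Sol.line_coord, ← hα']
    have : (2 ^ n * (α - k * a) / ((2 : ℕ) : ℝ) ^ n : ℝ) = α - ((k * a : ℤ) : ℝ) := by
      push_cast
      field_simp
    rw [this, AddCircle.coe_sub]
    have h1 : (((k * a : ℤ) : ℝ) : UnitAddCircle) = 0 := by
      rw [AddCircle.coe_eq_zero_iff]
      exact ⟨k * a, by simp⟩
    rw [h1, sub_zero]
  · rw [Sol.line_coord, ← hβ']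
    have : (2 ^ n * (α - k * a) / ((3 : ℕ) : ℝ) ^ n : ℝ) = β + ((k * b : ℤ) : ℝ) := by
      push_cast
      rw [div_eq_iff (by positivity)]
      linear_combination hk.symm - k * habR
    rw [this, AddCircle.coe_add]
    have h1 : (((k * b : ℤ) : ℝ) : UnitAddCircle) = 0 := by
      rw [AddCircle.coe_eq_zero_iff]
      exact ⟨k * b, by simp⟩
    rw [h1, add_zero]

theorem isConnected_diag : IsConnected {z : Sol 2 × Sol 3 | z.1.1 0 = z.2.1 0} := by
  have hc : Continuous fun t : ℝ => (Sol.line 2 two_ne_zero t, Sol.line 3 three_ne_zero t) :=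
    (Sol.continuous_line _).prodMk (Sol.continuous_line _)
  refine (isConnected_range hc).subset_closure ?_ ?_
  · rintro _ ⟨t, rfl⟩
    show ((t / _ : ℝ) : UnitAddCircle) = ((t / _ : ℝ) : UnitAddCircle)
    simp
  · rintro ⟨x, y⟩ hxy
    have hxy' : x.1 0 = y.1 0 := hxy
    choose t ht1 ht2 using exists_time x y hxy'
    refine mem_closure_of_tendsto (b := Filter.atTop)
      (f := fun n => (Sol.line 2 two_ne_zero (t n), Sol.line 3 three_ne_zero (t n))) ?_
      (Filter.Eventually.of_forall fun n => ⟨t n, rfl⟩)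
    refine Filter.Tendsto.prodMk_nhds ?_ ?_
    · rw [tendsto_subtype_rng, tendsto_pi_nhds]
      intro m
      refine tendsto_const_nhds.congr' ?_
      filter_upwards [Filter.eventually_ge_atTop m] with n hn
      exact (Sol.eq_of_eq (ht1 n) hn).symm
    · rw [tendsto_subtype_rng, tendsto_pi_nhds]
      intro m
      refine tendsto_const_nhds.congr' ?_
      filter_upwards [Filter.eventually_ge_atTop m] with n hn
      exact (Sol.eq_of_eq (ht2 n) hn).symm

theorem exists_rep (u : UnitAddCircle) : ∃ s : ℝ, (s : UnitAddCircle) = u ∧ |s| = ‖u‖ := by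
  obtain ⟨x, rfl⟩ := QuotientAddGroup.mk_surjective u
  refine ⟨x - round x, ?_, (UnitAddCircle.norm_eq).symm⟩
  rw [AddCircle.coe_sub]
  have : ((round x : ℝ) : UnitAddCircle) = 0 := by
    rw [AddCircle.coe_eq_zero_iff]; exact ⟨round x, by simp⟩
  rw [this, sub_zero]

theorem norm_coe_le (s : ℝ) : ‖(s : UnitAddCircle)‖ ≤ |s| := by
  rw [UnitAddCircle.norm_eq]
  have := round_le s 0
  simpa using this

/-- closed strips around translates of the diagonal are connected -/
theorem isConnected_strip (c δ : ℝ) (hδ : 0 ≤ δ) :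
    IsConnected {z : Sol 2 × Sol 3 | ‖z.1.1 0 - z.2.1 0 - (c : UnitAddCircle)‖ ≤ δ} := by
  have hI : IsConnected (Icc (-δ) δ) := isConnected_Icc (by linarith)
  have h1 := isConnected_diag.prod hI
  let F : (Sol 2 × Sol 3) × ℝ → Sol 2 × Sol 3 :=
    fun w => (w.1.1, w.1.2 - Sol.line 3 three_ne_zero (c + w.2))
  have hF : Continuous F := by
    refine Continuous.prodMk (continuous_fst.comp continuous_fst) ?_
    exact (continuous_snd.comp continuous_fst).sub
      ((Sol.continuous_line _).comp (continuous_const.add continuous_snd))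
  have h2 := h1.image F hF.continuousOn
  have h3 : ∀ (t : ℝ), (Sol.line 3 three_ne_zero t).1 0 = (t : UnitAddCircle) := by
    intro t
    rw [Sol.line_coord]; simp
  convert h2 using 1
  ext ⟨x, y⟩
  constructor
  · intro hxy
    have hxy' : ‖x.1 0 - y.1 0 - (c : UnitAddCircle)‖ ≤ δ := hxy
    obtain ⟨s, hs1, hs2⟩ := exists_rep (x.1 0 - y.1 0 - (c : UnitAddCircle))
    refine ⟨((x, y + Sol.line 3 three_ne_zero (c + s)), s), ⟨?_, ?_⟩, ?_⟩
    · show x.1 0 = y.1 0 + (Sol.line 3 three_ne_zero (c + s)).1 0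
      rw [h3, AddCircle.coe_add, hs1]
      abel
    · rw [← hs2] at hxy'
      exact abs_le.mp hxy'
    · show (x, y + Sol.line 3 three_ne_zero (c + s) - Sol.line 3 three_ne_zero (c + s)) = (x, y)
      rw [add_sub_cancel_right]
  · rintro ⟨⟨⟨x', y'⟩, s⟩, ⟨hd, hs⟩, he⟩
    have hd' : x'.1 0 = y'.1 0 := hd
    have he1 : x' = x := congrArg Prod.fst he
    have he2 : y' - Sol.line 3 three_ne_zero (c + s) = y := congrArg Prod.snd he
    subst he1
    subst he2
    show ‖x'.1 0 - (y'.1 0 - (Sol.line 3 three_ne_zero (c + s)).1 0) - (c : UnitAddCircle)‖ ≤ δ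
    rw [h3, AddCircle.coe_add, hd']
    have : y'.1 0 - (y'.1 0 - ((c : UnitAddCircle) + (s : UnitAddCircle))) - (c : UnitAddCircle)
        = (s : UnitAddCircle) := by abel
    rw [this]
    exact (norm_coe_le s).trans (abs_le.mpr hs)

theorem Sol.indecomposable {p : ℕ} (hp : 2 ≤ p) : IsIndecomposableContinuum (Sol p) := by
  have := Sol.connectedSpace (p := p) (by omega)
  exact indecomposable_of_eq_univ fun C h1 h2 h3 => Sol.eq_univ hp h1 h2 h3

theorem Sol.nontrivial {p : ℕ} (hp : p ≠ 0) : Nontrivial (Sol p) := by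
  refine ⟨0, Sol.line p hp (1 / 2), ?_⟩
  intro h
  have h1 : (Sol.line p hp (1 / 2)).1 0 = 0 := by rw [← h]; rfl
  rw [Sol.line_coord, AddCircle.coe_eq_zero_iff] at h1
  obtain ⟨n, hn⟩ := h1
  simp only [zsmul_eq_mul, mul_one, pow_zero, div_one] at hn
  have h2 : (2 * n : ℝ) = 1 := by rw [hn]; norm_num
  have h3 : 2 * n = 1 := by exact_mod_cast h2
  omega

theorem norm_half : ‖((1 / 2 : ℝ) : UnitAddCircle)‖ = 1 / 2 := by
  rw [UnitAddCircle.norm_eq]
  rw [show round (1 / 2 : ℝ) = 1 by norm_num [round_eq]]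
  norm_num


/-- the second of the two points of the dyadic solenoid that get identified -/
def zpt : Sol 2 := Sol.line 2 two_ne_zero (1 / 2)

/-- the class of `1/2` in the circle -/
def hlf : UnitAddCircle := ((1 / 2 : ℝ) : UnitAddCircle)

theorem zpt_coord : zpt.1 0 = hlf := by
  show (((1 / 2 : ℝ) / ((2 : ℕ) : ℝ) ^ 0 : ℝ) : UnitAddCircle) = hlf
  rw [pow_zero, div_one]; rfl

theorem norm_hlf : ‖hlf‖ = 1 / 2 := norm_half

theorem hlf_add_hlf : hlf + hlf = 0 := by
  show ((1 / 2 : ℝ) : UnitAddCircle) + ((1 / 2 : ℝ) : UnitAddCircle) = 0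
  rw [← AddCircle.coe_add, AddCircle.coe_eq_zero_iff]
  exact ⟨1, by norm_num⟩

/-- a metrizable quotient of the dyadic solenoid identifying exactly `0` and `zpt` -/
theorem exists_pinch : ∃ (X : Type) (_ : TopologicalSpace X) (q : Sol 2 → X),
    TopologicalSpace.MetrizableSpace X ∧ Continuous q ∧ Function.Surjective q ∧ q 0 = q zpt ∧
    ∀ x y, q x = q y → x = y ∨ (x = 0 ∧ y = zpt) ∨ (x = zpt ∧ y = 0) := by
  have := Sol.metrizable 2
  let _ : MetricSpace (Sol 2) := TopologicalSpace.metrizableSpaceMetric (Sol 2)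
  let ρ : Sol 2 → ℝ := fun x => dist x 0 * dist x zpt
  have hρ : Continuous ρ :=
    (continuous_id.dist continuous_const).mul (continuous_id.dist continuous_const)
  let Φ : Sol 2 → ℝ × (ℕ → ℂ) :=
    fun x => (ρ x, fun n => (ρ x : ℂ) * ((AddCircle.toCircle (x.1 n) : Circle) : ℂ))
  have hΦ : Continuous Φ := by
    refine hρ.prodMk (continuous_pi fun n => ?_)
    refine (Complex.continuous_ofReal.comp hρ).mul ?_
    exact (by fun_prop : Continuous fun z : Circle => (z : ℂ)).comp (AddCircle.continuous_toCircle.comp (Sol.continuous_coord n))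
  have hρ0 : ∀ x, ρ x = 0 → x = 0 ∨ x = zpt := by
    intro x hx
    rcases mul_eq_zero.mp hx with h | h
    · exact Or.inl (dist_eq_zero.mp h)
    · exact Or.inr (dist_eq_zero.mp h)
  have hρz : ρ 0 = 0 ∧ ρ zpt = 0 := by
    constructor
    · show dist (0 : Sol 2) 0 * _ = 0
      rw [dist_self, zero_mul]
    · show _ * dist zpt zpt = 0
      rw [dist_self, mul_zero]
  refine ⟨range Φ, inferInstance, rangeFactorization Φ, inferInstance,
    hΦ.codRestrict _, rangeFactorization_surjective, ?_, ?_⟩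
  · apply Subtype.ext
    show Φ 0 = Φ zpt
    simp only [Φ, hρz.1, hρz.2]
    simp
  · intro x y hxy
    have h : Φ x = Φ y := congrArg Subtype.val hxy
    have h1 : ρ x = ρ y := congrArg Prod.fst h
    by_cases h0 : ρ x = 0
    · have h0' : ρ y = 0 := h1 ▸ h0
      rcases hρ0 x h0 with hx | hx <;> rcases hρ0 y h0' with hy | hy
      · left; rw [hx, hy]
      · right; left; exact ⟨hx, hy⟩
      · right; right; exact ⟨hx, hy⟩
      · left; rw [hx, hy]
    · left
      apply Subtype.ext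
      funext n
      have h2 : (ρ x : ℂ) * ((AddCircle.toCircle (x.1 n) : Circle) : ℂ)
          = (ρ y : ℂ) * ((AddCircle.toCircle (y.1 n) : Circle) : ℂ) :=
        congrFun (congrArg Prod.snd h) n
      rw [← h1] at h2
      have h3 := mul_left_cancel₀ (Complex.ofReal_ne_zero.mpr h0) h2
      exact AddCircle.injective_toCircle one_ne_zero (Circle.coe_injective h3)

section Pinch

variable {X : Type} [TopologicalSpace X] [T2Space X] {q : Sol 2 → X}

/-- Closed preconnected sets with interior points in the pinched solenoid. -/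
theorem pinch_eq_univ (hq : Continuous q) (hs : Function.Surjective q) (h0 : q 0 = q zpt)
    (hk : ∀ x y, q x = q y → x = y ∨ (x = 0 ∧ y = zpt) ∨ (x = zpt ∧ y = 0))
    {C : Set X} (hC : IsClosed C) (hpre : IsPreconnected C) (hint : (interior C).Nonempty) :
    C = univ := by
  have hcm : IsClosedMap q := hq.isClosedMap
  have hC' : IsClosed (q ⁻¹' C) := hC.preimage hq
  have hint' : (interior (q ⁻¹' C)).Nonempty := by
    obtain ⟨c, hc⟩ := hint
    obtain ⟨x, rfl⟩ := hs c
    exact ⟨x, preimage_interior_subset_interior_preimage hq hc⟩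
  -- it is enough to see that the preimage is everything
  suffices hmain : q ⁻¹' C = univ by
    apply eq_univ_of_forall
    intro c
    obtain ⟨x, rfl⟩ := hs c
    have : x ∈ q ⁻¹' C := by rw [hmain]; trivial
    exact this
  by_cases hz : q 0 ∈ C
  · -- add the arc `E` from `0` to `zpt`
    let E : Set (Sol 2) := Sol.line 2 two_ne_zero '' Icc 0 (1 / 2)
    have hEcomp : IsCompact E := isCompact_Icc.image (Sol.continuous_line _)
    have hEpre : IsPreconnected E := isPreconnected_Icc.image _ (Sol.continuous_line _).continuousOn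
    have h0E : (0 : Sol 2) ∈ E := by
      refine ⟨0, ⟨le_rfl, by norm_num⟩, ?_⟩
      apply Subtype.ext
      funext n
      show ((0 / _ : ℝ) : UnitAddCircle) = 0
      rw [zero_div]; rfl
    have hzE : zpt ∈ E := ⟨1 / 2, ⟨by norm_num, le_rfl⟩, rfl⟩
    have hEne : E ≠ univ := by
      intro hE
      have hmem : Sol.line 2 two_ne_zero (3 / 4) ∈ E := by rw [hE]; trivial
      obtain ⟨t, ⟨ht0, ht1⟩, ht⟩ := hmem
      have h1 : (Sol.line 2 two_ne_zero t).1 0 = (Sol.line 2 two_ne_zero (3 / 4)).1 0 := by rw [ht]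
      rw [Sol.line_coord, Sol.line_coord, pow_zero, div_one, div_one] at h1
      have h2 := (AddCircle.coe_eq_coe_iff_of_mem_Ico (p := (1 : ℝ)) (a := 0) (x := t)
        (y := (3 / 4 : ℝ)) ⟨ht0, by linarith⟩ ⟨by norm_num, by norm_num⟩).mp h1
      linarith
    have hEint : interior E = ∅ := by
      by_contra hne
      exact hEne (Sol.eq_univ le_rfl hEcomp.isClosed hEpre (nonempty_iff_ne_empty.mpr hne))
    let D : Set (Sol 2) := q ⁻¹' C ∪ E
    have hDcl : IsClosed D := hC'.union hEcomp.isClosed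
    have hDpre : IsPreconnected D := by
      rw [isPreconnected_iff_subset_of_fully_disjoint_closed hDcl]
      intro u v hu hv huv hdisj
      have hED : E ⊆ u ∨ E ⊆ v :=
        isPreconnected_iff_subset_of_disjoint_closed.mp hEpre u v hu hv
          (subset_union_right.trans huv) (by rw [hdisj.inter_eq, inter_empty])
      -- the image of `D`
      have himg : IsPreconnected (C ∪ q '' E) := by
        refine IsPreconnected.union (q 0) hz ⟨0, h0E, rfl⟩ hpre (hEpre.image _ hq.continuousOn)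
      have key : ∀ u v : Set (Sol 2), IsClosed u → IsClosed v → D ⊆ u ∪ v → Disjoint u v → E ⊆ u →
          D ⊆ u := by
        intro u v hu hv huv hdisj hEu
        have hcl1 : IsClosed (q '' (D ∩ u)) := hcm _ (hDcl.inter hu)
        have hcl2 : IsClosed (q '' (D ∩ v)) := hcm _ (hDcl.inter hv)
        have hdisj' : Disjoint (q '' (D ∩ u)) (q '' (D ∩ v)) := by
          rw [Set.disjoint_left]
          rintro _ ⟨a, ⟨_, hau⟩, rfl⟩ ⟨b, ⟨_, hbv⟩, hab⟩
          rcases hk b a hab with h | ⟨h, _⟩ | ⟨h, _⟩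
          · subst h; exact Set.disjoint_left.mp hdisj hau hbv
          · subst h; exact Set.disjoint_left.mp hdisj (hEu h0E) hbv
          · subst h; exact Set.disjoint_left.mp hdisj (hEu hzE) hbv
        have hcov : C ∪ q '' E ⊆ q '' (D ∩ u) ∪ q '' (D ∩ v) := by
          rintro c (hc | ⟨e, he, rfl⟩)
          · obtain ⟨x, rfl⟩ := hs c
            have hxD : x ∈ D := Or.inl hc
            rcases huv hxD with hx | hx
            · exact Or.inl ⟨x, ⟨hxD, hx⟩, rfl⟩
            · exact Or.inr ⟨x, ⟨hxD, hx⟩, rfl⟩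
          · exact Or.inl ⟨e, ⟨Or.inr he, hEu he⟩, rfl⟩
        have hor := isPreconnected_iff_subset_of_disjoint_closed.mp himg _ _ hcl1 hcl2 hcov
          (by rw [hdisj'.inter_eq, inter_empty])
        have hq0 : q 0 ∈ q '' (D ∩ u) := ⟨0, ⟨Or.inr h0E, hEu h0E⟩, rfl⟩
        rcases hor with h | h
        · intro x hx
          by_contra hxu
          have hxv : x ∈ v := (huv hx).resolve_left hxu
          have hqx : q x ∈ C ∪ q '' E := by
            rcases hx with hx | hx
            · exact Or.inl hx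
            · exact Or.inr ⟨x, hx, rfl⟩
          exact Set.disjoint_left.mp hdisj' (h hqx) ⟨x, ⟨hx, hxv⟩, rfl⟩
        · exact absurd (h (Or.inl hz)) (Set.disjoint_left.mp hdisj' hq0)
      rcases hED with h | h
      · exact Or.inl (key u v hu hv huv hdisj h)
      · exact Or.inr (key v u hv hu (by rwa [union_comm]) hdisj.symm h)
    have hDint : (interior D).Nonempty := by
      obtain ⟨x, hx⟩ := hint'
      exact ⟨x, interior_mono subset_union_left hx⟩
    have hDuniv : D = univ := Sol.eq_univ le_rfl hDcl hDpre hDint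
    -- the complement of the preimage is an open subset of `E`
    have hsub : (q ⁻¹' C)ᶜ ⊆ E := by
      intro x hx
      have : x ∈ D := by rw [hDuniv]; trivial
      exact this.resolve_left hx
    have hsub2 : (q ⁻¹' C)ᶜ ⊆ interior E := interior_maximal hsub hC'.isOpen_compl
    rw [hEint, subset_empty_iff, compl_empty_iff] at hsub2
    exact hsub2
  · -- the pinched point is not in `C`
    refine Sol.eq_univ le_rfl hC' ?_ hint'
    rw [isPreconnected_iff_subset_of_fully_disjoint_closed hC']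
    intro u v hu hv huv hdisj
    have hcl1 : IsClosed (q '' (q ⁻¹' C ∩ u)) := hcm _ (hC'.inter hu)
    have hcl2 : IsClosed (q '' (q ⁻¹' C ∩ v)) := hcm _ (hC'.inter hv)
    have hdisj' : Disjoint (q '' (q ⁻¹' C ∩ u)) (q '' (q ⁻¹' C ∩ v)) := by
      rw [Set.disjoint_left]
      rintro _ ⟨a, ⟨haC, hau⟩, rfl⟩ ⟨b, ⟨hbC, hbv⟩, hab⟩
      rcases hk b a hab with h | ⟨h, _⟩ | ⟨h, _⟩
      · subst h; exact Set.disjoint_left.mp hdisj hau hbv
      · subst h; exact hz hbC
      · subst h; exact hz (by rw [h0]; exact hbC)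
    have hcov : C ⊆ q '' (q ⁻¹' C ∩ u) ∪ q '' (q ⁻¹' C ∩ v) := by
      intro c hc
      obtain ⟨x, rfl⟩ := hs c
      rcases huv hc with hx | hx
      · exact Or.inl ⟨x, ⟨hc, hx⟩, rfl⟩
      · exact Or.inr ⟨x, ⟨hc, hx⟩, rfl⟩
    have hor := isPreconnected_iff_subset_of_disjoint_closed.mp hpre _ _ hcl1 hcl2 hcov
      (by rw [hdisj'.inter_eq, inter_empty])
    rcases hor with h | h
    · left
      intro x hx
      by_contra hxu
      have hxv : x ∈ v := (huv hx).resolve_left hxu
      exact Set.disjoint_left.mp hdisj' (h hx) ⟨x, ⟨hx, hxv⟩, rfl⟩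
    · right
      intro x hx
      by_contra hxv
      have hxu : x ∈ u := (huv hx).resolve_right hxv
      exact Set.disjoint_left.mp hdisj' ⟨x, ⟨hx, hxu⟩, rfl⟩ (h hx)


/-- the isolated box around the point with first coordinates `(a_0, a_0 + 1/2)` -/
def box (a : Sol 2) : Set (Sol 2 × Sol 3) :=
  {w | ‖w.1.1 0 - a.1 0‖ < 1 / 8 ∧ ‖w.2.1 0 - (a.1 0 + hlf)‖ < 1 / 8}

/-- the open strip around the diagonal -/
def dstrip : Set (Sol 2 × Sol 3) := {w | ‖w.1.1 0 - w.2.1 0‖ < 1 / 8}

/-- the open set used in the example -/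
def bigU : Set (Sol 2 × Sol 3) := dstrip ∪ (box 0 ∪ box zpt)

theorem continuous_c1 (n : ℕ) : Continuous fun w : Sol 2 × Sol 3 => w.1.1 n :=
  (Sol.continuous_coord n).comp continuous_fst

theorem continuous_c2 (n : ℕ) : Continuous fun w : Sol 2 × Sol 3 => w.2.1 n :=
  (Sol.continuous_coord n).comp continuous_snd

theorem isOpen_box (a : Sol 2) : IsOpen (box a) :=
  (isOpen_lt ((continuous_c1 0).sub continuous_const).norm continuous_const).inter
    (isOpen_lt ((continuous_c2 0).sub continuous_const).norm continuous_const)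

theorem isOpen_dstrip : IsOpen dstrip :=
  isOpen_lt ((continuous_c1 0).sub (continuous_c2 0)).norm continuous_const

theorem isOpen_bigU : IsOpen bigU := isOpen_dstrip.union ((isOpen_box 0).union (isOpen_box zpt))

theorem zero_coord (n : ℕ) : (0 : Sol 2).1 n = 0 := rfl

/-- if `(0,y)` or `(zpt,y)` is in the open set then one of them is in its own box -/
theorem box_of_mem {y : Sol 3} (h : (0, y) ∈ bigU ∨ (zpt, y) ∈ bigU) :
    (0, y) ∈ box 0 ∨ (zpt, y) ∈ box zpt := by
  have hz : zpt.1 0 = hlf := zpt_coord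
  have hh : hlf + hlf = 0 := hlf_add_hlf
  have hself : ∀ u : UnitAddCircle, ‖u - u‖ < 1 / 8 := by intro u; rw [sub_self, norm_zero]; norm_num
  have hA : ‖y.1 0‖ < 1 / 8 → (zpt, y) ∈ box zpt := by
    intro h
    refine ⟨hself _, ?_⟩
    show ‖y.1 0 - (zpt.1 0 + hlf)‖ < 1 / 8
    rw [hz, hh, sub_zero]; exact h
  have hB : ‖y.1 0 - hlf‖ < 1 / 8 → (0, y) ∈ box 0 := by
    intro h
    refine ⟨hself _, ?_⟩
    show ‖y.1 0 - ((0 : Sol 2).1 0 + hlf)‖ < 1 / 8
    rw [zero_coord, zero_add]; exact h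
  rcases h with (h | h | h) | (h | h | h)
  · right; apply hA
    have h' : ‖(0 : Sol 2).1 0 - y.1 0‖ < 1 / 8 := h
    rw [zero_coord, zero_sub, norm_neg] at h'
    exact h'
  · left; exact h
  · exfalso
    have h' : ‖(0 : Sol 2).1 0 - zpt.1 0‖ < 1 / 8 := h.1
    rw [zero_coord, zero_sub, norm_neg, hz, norm_hlf] at h'
    norm_num at h'
  · left; apply hB
    have h' : ‖zpt.1 0 - y.1 0‖ < 1 / 8 := h
    rw [hz, norm_sub_rev] at h'
    exact h'
  · exfalso
    have h' : ‖zpt.1 0 - (0 : Sol 2).1 0‖ < 1 / 8 := h.1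
    rw [zero_coord, sub_zero, hz, norm_hlf] at h'
    norm_num at h'
  · right; exact h

/-- the open set does not distinguish `(0,y)` and `(zpt,y)` -/
theorem bigU_sat (y : Sol 3) : (0, y) ∈ bigU ↔ (zpt, y) ∈ bigU := by
  have hz : zpt.1 0 = hlf := zpt_coord
  have hh : hlf + hlf = 0 := hlf_add_hlf
  constructor
  · intro h
    rcases box_of_mem (Or.inl h) with h | h
    · left
      have h' : ‖y.1 0 - ((0 : Sol 2).1 0 + hlf)‖ < 1 / 8 := h.2
      rw [zero_coord, zero_add] at h'
      show ‖zpt.1 0 - y.1 0‖ < 1 / 8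
      rw [hz, norm_sub_rev]; exact h'
    · right; right; exact h
  · intro h
    rcases box_of_mem (Or.inr h) with h | h
    · right; left; exact h
    · left
      have h' : ‖y.1 0 - (zpt.1 0 + hlf)‖ < 1 / 8 := h.2
      rw [hz, hh, sub_zero] at h'
      show ‖(0 : Sol 2).1 0 - y.1 0‖ < 1 / 8
      rw [zero_coord, zero_sub, norm_neg]; exact h'

/-- a point of a box is at distance not in `[2^-(m+3), 2^-(m+1)]` from the centre at level `m` -/
theorem box_gap {b : Sol 2} {w : Sol 2 × Sol 3} (hw : w ∈ box b) (m : ℕ)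
    (h : ‖w.1.1 m - b.1 m‖ ≤ 1 / 2 ^ (m + 1)) : ‖w.1.1 m - b.1 m‖ < 1 / 2 ^ (m + 3) := by
  obtain ⟨s, hs1, hs2⟩ := exists_rep (w.1.1 m - b.1 m)
  have hx := Sol.steps w.1 0 m
  have hb := Sol.steps b 0 m
  rw [zero_add] at hx hb
  have h1 : ((2 ^ m * s : ℝ) : UnitAddCircle) = w.1.1 0 - b.1 0 := by
    rw [← hx, ← hb, ← nsmul_sub, ← hs1, ← AddCircle.coe_nsmul, nsmul_eq_mul]
    push_cast
    rfl
  have h2 : |2 ^ m * s| ≤ |(1 : ℝ)| / 2 := by
    rw [abs_mul, abs_of_pos (by positivity : (0 : ℝ) < 2 ^ m), abs_one, hs2]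
    calc (2 : ℝ) ^ m * ‖w.1.1 m - b.1 m‖ ≤ 2 ^ m * (1 / 2 ^ (m + 1)) := by gcongr
      _ = 1 / 2 := by rw [pow_succ]; field_simp
  have h3 : ‖((2 ^ m * s : ℝ) : UnitAddCircle)‖ = |2 ^ m * s| :=
    (AddCircle.norm_coe_eq_abs_iff 1 one_ne_zero).mpr h2
  have h4 : ‖w.1.1 0 - b.1 0‖ < 1 / 8 := hw.1
  rw [← h1, h3, abs_mul, abs_of_pos (by positivity : (0 : ℝ) < 2 ^ m), hs2] at h4
  have h5 : ‖w.1.1 m - b.1 m‖ < 1 / 8 / 2 ^ m := by
    rw [lt_div_iff₀ (by positivity)]; linarith
  calc _ < 1 / 8 / (2 : ℝ) ^ m := h5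
    _ = 1 / 2 ^ (m + 3) := by rw [pow_add]; field_simp; norm_num

/-- images of saturated open sets are open -/
theorem isOpen_image_of_sat (hq : Continuous q)
    (hk : ∀ x y, q x = q y → x = y ∨ (x = 0 ∧ y = zpt) ∨ (x = zpt ∧ y = 0))
    (hs : Function.Surjective q)
    {O : Set (Sol 2 × Sol 3)} (hO : IsOpen O) (hsat : ∀ y, (0, y) ∈ O ↔ (zpt, y) ∈ O) :
    IsOpen (Prod.map q id '' O) := by
  have hcm : IsClosedMap (Prod.map q id : Sol 2 × Sol 3 → X × Sol 3) :=
    (hq.prodMap continuous_id).isClosedMap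
  have h : Prod.map q id '' O = (Prod.map q id '' Oᶜ)ᶜ := by
    ext ⟨c, y⟩
    constructor
    · rintro ⟨⟨x, y1⟩, hx, hxy⟩ ⟨⟨x', y2⟩, hx', hxy'⟩
      have e1 : q x = c := congrArg Prod.fst hxy
      have e2 : y1 = y := congrArg Prod.snd hxy
      have e3 : q x' = c := congrArg Prod.fst hxy'
      have e4 : y2 = y := congrArg Prod.snd hxy'
      subst e2; subst e4
      rcases hk x x' (by rw [e1, e3]) with h | ⟨h, h'⟩ | ⟨h, h'⟩
      · subst h; exact hx' hx
      · subst h; subst h'; exact hx' ((hsat _).mp hx)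
      · subst h; subst h'; exact hx' ((hsat _).mpr hx)
    · intro hc
      obtain ⟨x, rfl⟩ := hs c
      by_contra hcon
      apply hc
      refine ⟨(x, y), ?_, rfl⟩
      intro hxO
      exact hcon ⟨(x, y), hxO, rfl⟩
  rw [h]
  exact (hcm _ hO.isClosed_compl).isOpen_compl

/-- no continuum neighbourhood of a pinched point inside the open set -/
theorem key (hq : Continuous q) (hs : Function.Surjective q)
    (hk : ∀ x y, q x = q y → x = y ∨ (x = 0 ∧ y = zpt) ∨ (x = zpt ∧ y = 0))
    {b : Sol 2} (hb : b = 0 ∨ b = zpt) {y : Sol 3} (hby : (b, y) ∈ box b)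
    {K : Set (X × Sol 3)} (hK : IsPreconnected K) (hint : (q b, y) ∈ interior K)
    (hKA : K ∩ (Prod.map q id '' bigUᶜ) = ∅) : False := by
  have hcontQ : Continuous (Prod.map q id : Sol 2 × Sol 3 → X × Sol 3) := hq.prodMap continuous_id
  -- nearby points
  have hOopen : IsOpen {x : Sol 2 | (q x, y) ∈ interior K} :=
    isOpen_interior.preimage (hq.prodMk continuous_const)
  obtain ⟨m, hm⟩ := Sol.exists_level hOopen (x := b) hint
  let w : Sol 2 := Sol.line 2 two_ne_zero (2 ^ m)
  have hw : ∀ j ≤ m, w.1 j = 0 := by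
    intro j hj
    show (((2 : ℝ) ^ m / ((2 : ℕ) : ℝ) ^ j : ℝ) : UnitAddCircle) = 0
    rw [AddCircle.coe_eq_zero_iff]
    refine ⟨(2 : ℤ) ^ (m - j), ?_⟩
    rw [zsmul_eq_mul, mul_one]
    push_cast
    rw [eq_div_iff (by positivity), ← pow_add, Nat.sub_add_cancel hj]
  have hw1 : w.1 (m + 1) = hlf := by
    show (((2 : ℝ) ^ m / ((2 : ℕ) : ℝ) ^ (m + 1) : ℝ) : UnitAddCircle) = ((1 / 2 : ℝ) : UnitAddCircle)
    congr 1
    push_cast
    rw [pow_succ]
    field_simp
  have hbw : (q (b + w), y) ∈ K := by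
    apply interior_subset
    apply hm
    show b.1 m + w.1 m = b.1 m
    rw [hw m le_rfl, add_zero]
  let B : Set (Sol 2 × Sol 3) := {v | v ∈ box b ∧ 1 / 2 ^ (m + 1 + 1) < ‖v.1.1 (m + 1) - b.1 (m + 1)‖}
  let C : Set (Sol 2 × Sol 3) := bigU \ B
  have hBopen : IsOpen B :=
    (isOpen_box b).inter (isOpen_lt continuous_const ((continuous_c1 (m + 1)).sub continuous_const).norm)
  have hboxU : box b ⊆ bigU := by
    rcases hb with rfl | rfl
    · exact fun v hv => Or.inr (Or.inl hv)
    · exact fun v hv => Or.inr (Or.inr hv)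
  have hBU : B ⊆ bigU := fun v hv => hboxU hv.1
  -- the complement of the box in `bigU`
  have hCopen : IsOpen C := by
    let other : Sol 2 := b + zpt
    have hCeq : C = {v | v ∈ box b ∧ ‖v.1.1 (m + 1) - b.1 (m + 1)‖ < 1 / 2 ^ (m + 1 + 3)} ∪
        (bigU ∩ {v | 1 / 8 < ‖v.1.1 0 - b.1 0‖ ∨ 1 / 8 < ‖v.2.1 0 - (b.1 0 + hlf)‖}) := by
      ext v
      constructor
      · rintro ⟨hvU, hvB⟩
        by_cases hvb : v ∈ box b
        · left
          refine ⟨hvb, box_gap hvb (m + 1) ?_⟩
          by_contra hcon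
          push Not at hcon
          exact hvB ⟨hvb, hcon⟩
        · right
          refine ⟨hvU, ?_⟩
          -- here we use the geometry of the first coordinates
          have hb0 : b.1 0 = 0 ∨ b.1 0 = hlf := by
            rcases hb with rfl | rfl
            · left; rfl
            · right; exact zpt_coord
          by_contra hcon
          simp only [mem_ofPred_eq, not_or, not_lt] at hcon
          obtain ⟨hc1, hc2⟩ := hcon
          rcases hvU with h | h | h
          · have h' : ‖v.1.1 0 - v.2.1 0‖ < 1 / 8 := h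
            have e : (v.1.1 0 - v.2.1 0) - (v.1.1 0 - b.1 0) + (v.2.1 0 - (b.1 0 + hlf)) = -hlf := by abel
            have h1 := norm_add_le ((v.1.1 0 - v.2.1 0) - (v.1.1 0 - b.1 0)) (v.2.1 0 - (b.1 0 + hlf))
            have h2 := norm_sub_le (v.1.1 0 - v.2.1 0) (v.1.1 0 - b.1 0)
            rw [e, norm_neg, norm_hlf] at h1
            linarith
          · rcases hb with rfl | rfl
            · exact hvb h
            · have h1 : ‖v.1.1 0 - (0 : Sol 2).1 0‖ < 1 / 8 := h.1
              have h2 := norm_sub_le (v.1.1 0 - (0 : Sol 2).1 0) (v.1.1 0 - zpt.1 0)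
              have e : (v.1.1 0 - (0 : Sol 2).1 0) - (v.1.1 0 - zpt.1 0) = hlf := by
                rw [zero_coord, zpt_coord]; abel
              rw [e, norm_hlf] at h2
              linarith
          · rcases hb with rfl | rfl
            · have h1 : ‖v.1.1 0 - zpt.1 0‖ < 1 / 8 := h.1
              have h2 := norm_sub_le (v.1.1 0 - (0 : Sol 2).1 0) (v.1.1 0 - zpt.1 0)
              have e : (v.1.1 0 - (0 : Sol 2).1 0) - (v.1.1 0 - zpt.1 0) = hlf := by
                rw [zero_coord, zpt_coord]; abel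
              rw [e, norm_hlf] at h2
              linarith
            · exact hvb h
      · rintro (⟨hvb, hv⟩ | ⟨hvU, hv⟩)
        · refine ⟨hboxU hvb, ?_⟩
          rintro ⟨_, hv'⟩
          have h1 : ‖v.1.1 (m + 1) - b.1 (m + 1)‖ < 1 / 2 ^ (m + 1 + 3) := hv
          have h2 : (1 : ℝ) / 2 ^ (m + 1 + 3) ≤ 1 / 2 ^ (m + 1 + 1) := by
            apply one_div_le_one_div_of_le (by positivity)
            exact pow_le_pow_right₀ (by norm_num) (by omega)
          linarith
        · refine ⟨hvU, ?_⟩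
          rintro ⟨hvb, _⟩
          have h1 : ‖v.1.1 0 - b.1 0‖ < 1 / 8 := hvb.1
          have h2 : ‖v.2.1 0 - (b.1 0 + hlf)‖ < 1 / 8 := hvb.2
          rcases hv with hv | hv <;> linarith
    rw [hCeq]
    refine IsOpen.union ?_ (isOpen_bigU.inter (IsOpen.union ?_ ?_))
    · exact (isOpen_box b).inter
        (isOpen_lt ((continuous_c1 (m + 1)).sub continuous_const).norm continuous_const)
    · exact isOpen_lt continuous_const ((continuous_c1 0).sub continuous_const).norm
    · exact isOpen_lt continuous_const ((continuous_c2 0).sub continuous_const).norm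
  -- the two pinched points are not in `B`
  have hBne : ∀ v ∈ B, v.1 ≠ 0 ∧ v.1 ≠ zpt := by
    rintro ⟨x, y'⟩ ⟨hv1, hv2⟩
    have hv1' : ‖x.1 0 - b.1 0‖ < 1 / 8 := hv1.1
    have hv2' : 1 / 2 ^ (m + 1 + 1) < ‖x.1 (m + 1) - b.1 (m + 1)‖ := hv2
    have hself : x ≠ b := by
      rintro rfl
      rw [sub_self, norm_zero] at hv2'
      have : (0 : ℝ) < 1 / 2 ^ (m + 1 + 1) := by positivity
      linarith
    rcases hb with rfl | rfl
    · refine ⟨hself, ?_⟩
      rintro rfl
      rw [zpt_coord, zero_coord, sub_zero, norm_hlf] at hv1'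
      norm_num at hv1'
    · refine ⟨?_, hself⟩
      rintro rfl
      rw [zpt_coord, zero_coord, zero_sub, norm_neg, norm_hlf] at hv1'
      norm_num at hv1'
  have hBsat : ∀ y', (0, y') ∈ B ↔ (zpt, y') ∈ B := by
    intro y'
    constructor
    · intro h; exact absurd rfl (hBne _ h).1
    · intro h; exact absurd rfl (hBne _ h).2
  have hCsat : ∀ y', (0, y') ∈ C ↔ (zpt, y') ∈ C := by
    intro y'
    constructor
    · rintro ⟨h1, _⟩
      exact ⟨(bigU_sat y').mp h1, fun h => (hBne _ h).2 rfl⟩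
    · rintro ⟨h1, _⟩
      exact ⟨(bigU_sat y').mpr h1, fun h => (hBne _ h).1 rfl⟩
  have hQB := isOpen_image_of_sat hq hk hs hBopen hBsat
  have hQC := isOpen_image_of_sat hq hk hs hCopen hCsat
  have hcov : K ⊆ Prod.map q id '' B ∪ Prod.map q id '' C := by
    rintro ⟨c, y'⟩ hc
    obtain ⟨x, rfl⟩ := hs c
    have hxU : (x, y') ∈ bigU := by
      by_contra hxU
      have : (q x, y') ∈ K ∩ (Prod.map q id '' bigUᶜ) := ⟨hc, ⟨(x, y'), hxU, rfl⟩⟩
      rw [hKA] at this
      exact this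
    by_cases hxB : (x, y') ∈ B
    · exact Or.inl ⟨_, hxB, rfl⟩
    · exact Or.inr ⟨_, ⟨hxU, hxB⟩, rfl⟩
  have hb'0 : (b + w).1 0 = b.1 0 := by
    show b.1 0 + w.1 0 = b.1 0
    rw [hw 0 (Nat.zero_le _), add_zero]
  have hne1 : (K ∩ Prod.map q id '' B).Nonempty := by
    refine ⟨_, hbw, ⟨(b + w, y), ⟨⟨?_, hby.2⟩, ?_⟩, rfl⟩⟩
    · show ‖(b + w).1 0 - b.1 0‖ < 1 / 8
      rw [hb'0, sub_self, norm_zero]; norm_num
    · show 1 / 2 ^ (m + 1 + 1) < ‖(b.1 (m + 1) + w.1 (m + 1)) - b.1 (m + 1)‖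
      rw [add_sub_cancel_left, hw1, norm_hlf]
      apply one_div_lt_one_div_of_lt (by norm_num)
      calc (2 : ℝ) = 2 ^ 1 := by norm_num
        _ < 2 ^ (m + 1 + 1) := pow_lt_pow_right₀ (by norm_num) (by omega)
  have hne2 : (K ∩ Prod.map q id '' C).Nonempty := by
    refine ⟨(q b, y), interior_subset hint, ⟨(b, y), ⟨hboxU hby, ?_⟩, rfl⟩⟩
    intro h
    have h1 := hBne _ h
    rcases hb with rfl | rfl
    · exact h1.1 rfl
    · exact h1.2 rfl
  obtain ⟨c, hcK, hcB, hcC⟩ := hK _ _ hQB hQC hcov hne1 hne2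
  obtain ⟨⟨x, y1⟩, hx, hxc⟩ := hcB
  obtain ⟨⟨x', y2⟩, hx', hxc'⟩ := hcC
  have e0 : Prod.map q id (x, y1) = (Prod.map q id (x', y2) : X × Sol 3) := by rw [hxc, hxc']
  have e1 : q x = q x' := congrArg Prod.fst e0
  have e2 : y1 = y2 := congrArg Prod.snd e0
  subst e2
  rcases hk x x' e1 with h | ⟨h, _⟩ | ⟨h, _⟩
  · subst h; exact hx'.2 hx
  · exact (hBne _ hx).1 h
  · exact (hBne _ hx).2 h

end Pinch

/-- There are metrizable indecomposable continua `X`, `Y` and a closed set `A` in `X × Y` with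
`T (T A) ≠ T A`. -/
theorem result : ∃ (X Y : Type) (_ : TopologicalSpace X) (_ : TopologicalSpace Y),
    IsIndecomposableContinuum X ∧ IsIndecomposableContinuum Y ∧
    TopologicalSpace.MetrizableSpace X ∧ TopologicalSpace.MetrizableSpace Y ∧
    ∃ A : Set (X × Y), IsClosed A ∧ jonesT (jonesT A) ≠ jonesT A := by
  obtain ⟨X, tX, q, hmet, hq, hs, h0, hk⟩ := exists_pinch
  have hT2 : T2Space X := inferInstance
  have hS2 : ConnectedSpace (Sol 2) := Sol.connectedSpace two_ne_zero
  have hcomp : CompactSpace X := hs.compactSpace hq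
  have hconn : ConnectedSpace X := hs.connectedSpace hq
  have hXuniv : ∀ C : Set X, IsClosed C → IsPreconnected C → (interior C).Nonempty → C = univ :=
    fun C h1 h2 h3 => pinch_eq_univ hq hs h0 hk h1 h2 h3
  have hcontQ : Continuous (Prod.map q id : Sol 2 × Sol 3 → X × Sol 3) := hq.prodMap continuous_id
  have hcm : IsClosedMap (Prod.map q id : Sol 2 × Sol 3 → X × Sol 3) := hcontQ.isClosedMap
  refine ⟨X, Sol 3, tX, inferInstance, indecomposable_of_eq_univ hXuniv,
    Sol.indecomposable (by norm_num), hmet, Sol.metrizable 3, Prod.map q id '' bigUᶜ,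
    hcm _ isOpen_bigU.isClosed_compl, ?_⟩
  set A : Set (X × Sol 3) := Prod.map q id '' bigUᶜ with hA
  -- the pinched fibre lies in `T A`
  have hfib : ∀ y : Sol 3, (q 0, y) ∈ jonesT A := by
    intro y
    rintro ⟨K, hK, hint, hKA⟩
    have hmem : (0, y) ∈ bigU := by
      by_contra hcon
      have : (q 0, y) ∈ K ∩ A := ⟨interior_subset hint, ⟨(0, y), hcon, rfl⟩⟩
      rw [hKA] at this
      exact this
    rcases box_of_mem (Or.inl hmem) with h | h
    · exact key hq hs hk (Or.inl rfl) h hK.2.isPreconnected hint hKA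
    · refine key hq hs hk (Or.inr rfl) h hK.2.isPreconnected ?_ hKA
      rw [← h0]; exact hint
  -- hence `T (T A)` is everything
  have hTT : jonesT (jonesT A) = univ := by
    apply eq_univ_of_forall
    rintro p ⟨K, hK, hint, hKA⟩
    have hKX : Prod.fst '' K = (univ : Set X) := by
      apply hXuniv
      · exact (hK.1.image continuous_fst).isClosed
      · exact (hK.2.image _ continuous_fst.continuousOn).isPreconnected
      · refine ⟨p.1, ?_⟩
        have : Prod.fst '' interior K ⊆ interior (Prod.fst '' K) :=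
          interior_maximal (image_mono interior_subset) (isOpenMap_fst _ isOpen_interior)
        exact this ⟨p, hint, rfl⟩
    have hq0 : q 0 ∈ Prod.fst '' K := by rw [hKX]; trivial
    obtain ⟨⟨c, y⟩, hc, hc'⟩ := hq0
    have hc'' : c = q 0 := hc'
    subst hc''
    have : (q 0, y) ∈ K ∩ jonesT A := ⟨hc, hfib y⟩
    rw [hKA] at this
    exact this
  rw [hTT]
  -- but `T A` is not
  intro huniv
  let W0 : Set (Sol 2 × Sol 3) := {w | ‖w.1.1 0 - w.2.1 0 - ((0 : ℝ) : UnitAddCircle)‖ ≤ 1 / 16}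
  have hW0conn : IsConnected W0 := isConnected_strip 0 (1 / 16) (by norm_num)
  have hW0cl : IsClosed W0 :=
    isClosed_le (((continuous_c1 0).sub (continuous_c2 0)).sub continuous_const).norm continuous_const
  have hW0U : W0 ⊆ bigU := by
    intro w hw
    left
    have h1 : ‖w.1.1 0 - w.2.1 0 - ((0 : ℝ) : UnitAddCircle)‖ ≤ 1 / 16 := hw
    rw [AddCircle.coe_zero, sub_zero] at h1
    show ‖w.1.1 0 - w.2.1 0‖ < 1 / 8
    linarith
  let O : Set (Sol 2 × Sol 3) := {w | ‖w.1.1 0 - w.2.1 0‖ < 1 / 16} ∩ {w | w.1 ≠ 0 ∧ w.1 ≠ zpt}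
  have hOopen : IsOpen O := by
    refine (isOpen_lt ((continuous_c1 0).sub (continuous_c2 0)).norm continuous_const).inter ?_
    exact (isOpen_ne_fun continuous_fst continuous_const).inter
      (isOpen_ne_fun continuous_fst continuous_const)
  have hOsat : ∀ y, (0, y) ∈ O ↔ (zpt, y) ∈ O := by
    intro y
    constructor
    · intro h; exact absurd rfl h.2.1
    · intro h; exact absurd rfl h.2.2
  have hQO := isOpen_image_of_sat hq hk hs hOopen hOsat
  have hOW : O ⊆ W0 := by
    rintro w ⟨hw, _⟩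
    have h1 : ‖w.1.1 0 - w.2.1 0‖ < 1 / 16 := hw
    show ‖w.1.1 0 - w.2.1 0 - ((0 : ℝ) : UnitAddCircle)‖ ≤ 1 / 16
    rw [AddCircle.coe_zero, sub_zero]
    exact h1.le
  let p : Sol 2 × Sol 3 := (Sol.line 2 two_ne_zero (1 / 4), Sol.line 3 three_ne_zero (1 / 4))
  have hpO : p ∈ O := by
    have e1 : p.1.1 0 = ((1 / 4 : ℝ) : UnitAddCircle) := by
      show ((1 / 4 / ((2 : ℕ) : ℝ) ^ 0 : ℝ) : UnitAddCircle) = _
      rw [pow_zero, div_one]
    have e2 : p.2.1 0 = ((1 / 4 : ℝ) : UnitAddCircle) := by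
      show ((1 / 4 / ((3 : ℕ) : ℝ) ^ 0 : ℝ) : UnitAddCircle) = _
      rw [pow_zero, div_one]
    refine ⟨?_, ?_, ?_⟩
    · show ‖p.1.1 0 - p.2.1 0‖ < 1 / 16
      rw [e1, e2, sub_self, norm_zero]; norm_num
    · intro h
      rw [h, zero_coord] at e1
      have h2 := (AddCircle.coe_eq_coe_iff_of_mem_Ico (p := (1 : ℝ)) (a := 0) (x := (0 : ℝ))
        (y := (1 / 4 : ℝ)) ⟨le_rfl, by norm_num⟩ ⟨by norm_num, by norm_num⟩).mp (by rw [← e1]; rfl)
      norm_num at h2
    · intro h
      rw [h, zpt_coord] at e1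
      have h2 := (AddCircle.coe_eq_coe_iff_of_mem_Ico (p := (1 : ℝ)) (a := 0) (x := (1 / 2 : ℝ))
        (y := (1 / 4 : ℝ)) ⟨by norm_num, by norm_num⟩ ⟨by norm_num, by norm_num⟩).mp (by rw [← e1]; rfl)
      norm_num at h2
  have hmem : Prod.map q id p ∈ jonesT A := by rw [← huniv]; trivial
  apply hmem
  refine ⟨Prod.map q id '' W0, ⟨hW0cl.isCompact.image hcontQ, hW0conn.image _ hcontQ.continuousOn⟩,
    ?_, ?_⟩
  · exact interior_maximal (image_mono hOW) hQO ⟨p, hpO, rfl⟩
  · rw [eq_empty_iff_forall_notMem]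
    rintro c ⟨⟨⟨x, y1⟩, hx, hxc⟩, ⟨⟨x', y2⟩, hx', hxc'⟩⟩
    have e0 : Prod.map q id (x, y1) = (Prod.map q id (x', y2) : X × Sol 3) := by rw [hxc, hxc']
    have e1 : q x = q x' := congrArg Prod.fst e0
    have e2 : y1 = y2 := congrArg Prod.snd e0
    subst e2
    have hxU : (x, y1) ∈ bigU := hW0U hx
    rcases hk x x' e1 with h | ⟨h, h'⟩ | ⟨h, h'⟩
    · subst h; exact hx' hxU
    · subst h; subst h'; exact hx' ((bigU_sat y1).mp hxU)
    · subst h; subst h'; exact hx' ((bigU_sat y1).mpr hxU)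

end Pool.Agent.Results.MP_fe892a_gt.ClosedCounterexample
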